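import Mathlib

/-!
Algebraic numbers of prime degree `p` and values of rational functions at them.
-/

set_option autoImplicit false

namespace Pool.Agent.V8H39.BSS

open Polynomial IntermediateField Module

/-- If `A / F` is Galois then `[A B : F]` divides `[A : F] [B : F]`. -/
theorem finrank_sup_dvd {F E : Type*} [Field F] [Field E] [Algebra F E]
    (A B : IntermediateField F E) [IsGalois F A] [FiniteDimensional F A] [FiniteDimensional F B] :
    finrank F ↥(A ⊔ B) ∣ finrank F A * finrank F B := by
  let C : IntermediateField F E := A ⊔ B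
  let A' : IntermediateField F C := A.restrict le_sup_left
  let B' : IntermediateField F C := B.restrict le_sup_right
  have h₁ : A' ⊔ B' = ⊤ := by
    rw [← lift_inj, lift_top, lift_sup, lift_restrict le_sup_left, lift_restrict le_sup_right]
  have hA : IsGalois F A' := IsGalois.of_algEquiv <| restrictAlgEquiv ..
  have eA : finrank F A' = finrank F A := by
    exact (LinearEquiv.finrank_eq (restrictAlgEquiv (E := C) le_sup_left).toLinearEquiv).symm
  have eB : finrank F B' = finrank F B := by
    exact (LinearEquiv.finrank_eq (restrictAlgEquiv (E := C) le_sup_right).toLinearEquiv).symm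
  have : IsGalois B' C := IsGalois.sup_right A' B' h₁
  have hC : FiniteDimensional F C := inferInstance
  have h2 : finrank B' C ∣ finrank F A' := by
    rw [← IsGalois.card_aut_eq_finrank, ← IsGalois.card_aut_eq_finrank]
    exact Subgroup.card_dvd_of_injective _ (restrictRestrictAlgEquivMapHom_injective _ _ h₁)
  have h3 : finrank F B' * finrank B' C = finrank F C := finrank_mul_finrank F B' C
  show finrank F C ∣ _
  rw [← h3, ← eA, ← eB, mul_comm]
  exact Nat.mul_dvd_mul h2 dvd_rfl

/-- the coefficientwise image of a polynomial under a linear functional -/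
noncomputable def pmap (k : Subfield ℝ) (φ : ℝ →ₗ[k] k) (A : ℝ[X]) : k[X] :=
  ∑ i ∈ Finset.range (A.natDegree + 1), monomial i (φ (A.coeff i))

theorem eval_pmap (k : Subfield ℝ) (φ : ℝ →ₗ[k] k) (A : ℝ[X]) (x : k) :
    (pmap k φ A).eval x = φ (A.eval (x : ℝ)) := by
  rw [pmap, eval_finsetSum, eval_eq_sum_range, map_sum]
  apply Finset.sum_congr rfl
  intro i _
  rw [eval_monomial]
  have h : A.coeff i * (x : ℝ) ^ i = (x ^ i : k) • A.coeff i := by
    rw [Subfield.smul_def, smul_eq_mul, mul_comm]
    push_cast
    ring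
  rw [h, map_smul, smul_eq_mul, mul_comm]

theorem coeff_pmap (k : Subfield ℝ) (φ : ℝ →ₗ[k] k) (A : ℝ[X]) (i : ℕ) :
    (pmap k φ A).coeff i = φ (A.coeff i) := by
  rw [pmap, finsetSum_coeff]
  simp only [coeff_monomial]
  rw [Finset.sum_ite_eq']
  split_ifs with h
  · rfl
  · rw [Finset.mem_range, not_lt] at h
    rw [coeff_eq_zero_of_natDegree_lt (by omega), map_zero]

/-- a nonconstant rational function is not periodic -/
theorem not_periodic {A B : ℂ[X]} {δ : ℂ} (hδ : δ ≠ 0) (hB : B ≠ 0)
    (hne : ∀ y : ℂ, A ≠ C y * B) :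
    A * B.comp (X + C δ) - A.comp (X + C δ) * B ≠ 0 := by
  intro h
  -- choose a point at which no translate of `B` vanishes
  have hfin : (⋃ n : ℕ, {x : ℂ | B.eval (x + n * δ) = 0}).Countable := by
    apply Set.countable_iUnion
    intro n
    apply Set.Finite.countable
    have h1 : {x : ℂ | B.eval (x + n * δ) = 0} = (fun x => x + n * δ) ⁻¹' {x | B.IsRoot x} := rfl
    rw [h1]
    apply Set.Finite.preimage
    · intro x _ y _ hxy
      simpa using hxy
    · exact finite_setOfPred_isRoot hB
  obtain ⟨x, hx⟩ : ∃ x : ℂ, x ∉ ⋃ n : ℕ, {x : ℂ | B.eval (x + n * δ) = 0} := by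
    by_contra hcon
    push Not at hcon
    apply not_countable_complex
    exact hfin.mono fun x _ => hcon x
  have hx' : ∀ n : ℕ, B.eval (x + n * δ) ≠ 0 := by
    intro n hn
    exact hx (Set.mem_iUnion.2 ⟨n, hn⟩)
  set y := A.eval x / B.eval x with hy
  have hval : ∀ n : ℕ, A.eval (x + n * δ) = y * B.eval (x + n * δ) := by
    intro n
    induction n with
    | zero =>
      have := hx' 0
      simp only [Nat.cast_zero, zero_mul, add_zero] at this ⊢
      rw [hy]
      field_simp
    | succ n ih =>
      have h1 := congrArg (eval (x + n * δ)) h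
      simp only [eval_sub, eval_mul, eval_comp, eval_add, eval_X, eval_C, eval_zero] at h1
      have h2 : x + (n : ℂ) * δ + δ = x + ((n + 1 : ℕ) : ℂ) * δ := by push_cast; ring
      rw [h2, ih] at h1
      have h3 := hx' n
      have h4 : B.eval (x + n * δ) * (y * B.eval (x + ((n + 1 : ℕ) : ℂ) * δ) -
          A.eval (x + ((n + 1 : ℕ) : ℂ) * δ)) = 0 := by linear_combination h1
      rcases mul_eq_zero.1 h4 with h5 | h5
      · exact absurd h5 h3
      · exact (sub_eq_zero.1 h5).symm
  apply hne y
  rw [← sub_eq_zero]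
  by_contra hne0
  have hinf : Set.Infinite {z | (A - C y * B).IsRoot z} := by
    apply Set.infinite_of_injective_forall_mem (f := fun n : ℕ => x + n * δ)
    · intro n m hnm
      simp only [add_right_inj] at hnm
      exact_mod_cast mul_right_cancel₀ hδ hnm
    · intro n
      show (A - C y * B).eval _ = 0
      rw [eval_sub, eval_mul, eval_C, hval n, sub_self]
  exact hinf (finite_setOfPred_isRoot hne0)

/-- A quotient of two primes is not a `p`-th power of a rational number. -/
theorem not_pow_div {p a b : ℕ} (hp : p.Prime) (ha : a.Prime) (hb : b.Prime) (hab : a ≠ b)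
    (r : ℚ) : r ^ p ≠ (a : ℚ) / b := by
  intro h
  have : Fact a.Prime := ⟨ha⟩
  have : Fact b.Prime := ⟨hb⟩
  have ha0 : (a : ℚ) ≠ 0 := by exact_mod_cast ha.ne_zero
  have hb0 : (b : ℚ) ≠ 0 := by exact_mod_cast hb.ne_zero
  have hr : r ≠ 0 := by
    rintro rfl
    rw [zero_pow hp.ne_zero] at h
    exact (div_ne_zero ha0 hb0) h.symm
  have h1 : padicValRat a (r ^ p) = padicValRat a ((a : ℚ) / b) := by rw [h]
  rw [padicValRat.pow, padicValRat.div ha0 hb0, padicValRat.of_nat, padicValRat.of_nat,
    padicValNat_self, (padicValNat_primes (p := a) (q := b) hab)] at h1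
  have h2 : (p : ℤ) ∣ 1 := ⟨padicValRat a r, by push_cast at h1; linarith⟩
  have h3 : p ∣ 1 := by exact_mod_cast h2
  exact hp.one_lt.ne' (Nat.dvd_one.1 h3)

/-- In a number field only finitely many primes are `p`-th powers. -/
theorem exists_prime_not_pow (K : Type*) [Field K] [Algebra ℚ K] [FiniteDimensional ℚ K]
    {p : ℕ} (hp : p.Prime) : ∃ a : ℕ, a.Prime ∧ ∀ b : K, b ^ p ≠ (a : K) := by
  classical
  by_contra hcon
  push Not at hcon
  have hcz : CharZero K := algebraRat.charZero K
  choose b hb using hcon
  let v : {a : ℕ // a.Prime} → K := fun a => b a.1 a.2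
  have hv : ∀ a, v a ^ p = (a.1 : K) := fun a => hb a.1 a.2
  have hv0 : ∀ a, v a ≠ 0 := by
    intro a h
    have h1 := hv a
    rw [h, zero_pow hp.ne_zero] at h1
    have : (a.1 : K) ≠ 0 := by exact_mod_cast a.2.ne_zero
    exact this h1.symm
  have htr : ∀ a c, a ≠ c → Algebra.trace ℚ K (v a / v c) = 0 := by
    intro a c hac
    have h1 : (v a / v c) ^ p = algebraMap ℚ K ((a.1 : ℚ) / c.1) := by
      rw [div_pow, hv, hv]
      simp
    have hirr : Irreducible (X ^ p - C ((a.1 : ℚ) / c.1)) :=
      X_pow_sub_C_irreducible_of_prime hp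
        (fun r => not_pow_div hp a.2 c.2 (fun h => hac (Subtype.ext h)) r)
    have h2 : minpoly ℚ (v a / v c) = X ^ p - C ((a.1 : ℚ) / c.1) := by
      symm
      apply minpoly.eq_of_irreducible_of_monic hirr
      · simp only [map_sub, map_pow, aeval_X, aeval_C]
        rw [h1, sub_self]
      · exact monic_X_pow_sub_C _ hp.ne_zero
    rw [trace_eq_finrank_mul_minpoly_nextCoeff, h2]
    have h3 : (X ^ p - C ((a.1 : ℚ) / c.1)).nextCoeff = 0 := by
      rw [nextCoeff_of_natDegree_pos (by rw [natDegree_X_pow_sub_C]; exact hp.pos),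
        natDegree_X_pow_sub_C, coeff_sub, coeff_X_pow, coeff_C]
      have h4 : ¬ (p - 1 = p) := by have := hp.pos; omega
      have h5 : ¬ (p - 1 = 0) := by have := hp.two_le; omega
      simp [h4, h5]
    rw [h3]
    simp
  have hli : LinearIndependent ℚ v := by
    rw [linearIndependent_iff']
    intro s g hg c hc
    have h1 : ∑ a ∈ s, g a • (v a / v c) = 0 := by
      have h2 : (∑ a ∈ s, g a • v a) * (v c)⁻¹ = 0 := by rw [hg, zero_mul]
      rw [Finset.sum_mul] at h2
      rw [← h2]
      apply Finset.sum_congr rfl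
      intro a _
      rw [div_eq_mul_inv, smul_mul_assoc]
    have h2 := congrArg (Algebra.trace ℚ K) h1
    rw [map_sum, map_zero, Finset.sum_eq_single c] at h2
    · rw [map_smul, div_self (hv0 c)] at h2
      have h3 : Algebra.trace ℚ K (1 : K) = (finrank ℚ K : ℚ) := by
        have := Algebra.trace_algebraMap (R := ℚ) (S := K) 1
        rw [map_one] at this
        rw [this]
        simp
      rw [h3, smul_eq_mul] at h2
      rcases mul_eq_zero.1 h2 with h4 | h4
      · exact h4
      · exfalso
        have : (finrank ℚ K : ℚ) ≠ 0 := by exact_mod_cast (finrank_pos (R := ℚ) (M := K)).ne'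
        exact this h4
    · intro a _ hac
      rw [map_smul, htr a c hac, smul_zero]
    · intro h; exact absurd hc h
  have hfin : Finite {a : ℕ // a.Prime} := hli.finite
  exact Nat.infinite_setOfPred_prime (Set.finite_coe_iff.1 hfin)

end Pool.Agent.V8H39.BSS
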