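import Pool.Agent.V8H39.BSS.Alg

/-!
A real algebraic number of prime degree `p` in a given open set at which finitely many given
nonconstant real rational functions do not take values of degree `d`, when `p` does not divide `d`.
-/

set_option autoImplicit false

namespace Pool.Agent.V8H39.BSS

open Polynomial IntermediateField Module

/-- A finite set of algebraic elements is contained in a finite Galois extension. -/
theorem exists_galois {F E : Type*} [Field F] [CharZero F] [Field E] [Algebra F E] [IsAlgClosed E]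
    (S : Set E) (hS : S.Finite) (h : ∀ s ∈ S, IsAlgebraic F s) :
    ∃ K : IntermediateField F E, FiniteDimensional F K ∧ IsGalois F K ∧ ∀ s ∈ S, s ∈ K := by
  classical
  let m : F[X] := ∏ s ∈ hS.toFinset, minpoly F s
  have hm : m ≠ 0 := by
    apply Finset.prod_ne_zero_iff.2
    intro s hs
    exact minpoly.ne_zero (h s (hS.mem_toFinset.1 hs)).isIntegral
  have hsplit : (m.map (algebraMap F E)).Splits := IsAlgClosed.splits _
  have hsf : IsSplittingField F (adjoin F (m.rootSet E)) m := adjoin_rootSet_isSplittingField hsplit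
  have hfd : FiniteDimensional F (adjoin F (m.rootSet E)) := IsSplittingField.finiteDimensional _ m
  have hn : Normal F (adjoin F (m.rootSet E)) := Normal.of_isSplittingField m
  refine ⟨adjoin F (m.rootSet E), hfd, ⟨⟩, fun s hs => ?_⟩
  apply subset_adjoin
  rw [mem_rootSet]
  refine ⟨hm, ?_⟩
  rw [map_prod]
  exact Finset.prod_eq_zero (hS.mem_toFinset.2 hs) (minpoly.aeval F s)

/-- Replace the coefficients of a real rational function by algebraic ones, without changing the
algebraic values at algebraic points. -/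
theorem exists_algebraic (k : Subfield ℝ) (A B : ℝ[X]) (hB : B ≠ 0) :
    ∃ A' B' : k[X], B' ≠ 0 ∧ ∀ x y : k, A.eval (x : ℝ) = y * B.eval (x : ℝ) →
      A'.eval x = y * B'.eval x := by
  obtain ⟨i, hi⟩ : ∃ i, B.coeff i ≠ 0 := by
    by_contra hcon
    push Not at hcon
    exact hB (Polynomial.ext (by simpa using hcon))
  obtain ⟨φ, hφ⟩ : ∃ φ : Dual k ℝ, φ (B.coeff i) ≠ 0 := by
    by_contra hcon
    push Not at hcon
    exact hi ((forall_dual_apply_eq_zero_iff k _).1 hcon)
  refine ⟨pmap k φ A, pmap k φ B, ?_, ?_⟩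
  · intro h
    apply hφ
    rw [← coeff_pmap, h, coeff_zero]
  · intro x y hxy
    rw [eval_pmap, eval_pmap, hxy]
    have h : (y : ℝ) * B.eval (x : ℝ) = y • B.eval (x : ℝ) := by
      rw [Subfield.smul_def, smul_eq_mul]
    rw [h, map_smul, smul_eq_mul]

/-- the field of real algebraic numbers -/
noncomputable def kk : Subfield ℝ := (algebraicClosure ℚ ℝ).toSubfield

theorem mem_kk {x : ℝ} : x ∈ kk ↔ IsAlgebraic ℚ x := by
  unfold kk
  exact mem_algebraicClosure_iff

theorem algebraic_complex {x : ℝ} (h : IsAlgebraic ℚ x) : IsAlgebraic ℚ (x : ℂ) := by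
  obtain ⟨q, hq, hx⟩ := h
  refine ⟨q, hq, ?_⟩
  have h1 : aeval (x : ℂ) q = ((aeval x q : ℝ) : ℂ) := by
    have := aeval_algebraMap_apply ℂ x q
    simpa using this
  rw [h1, hx, Complex.ofReal_zero]

theorem minpoly_complex (x : ℝ) : minpoly ℚ (x : ℂ) = minpoly ℚ x := by
  have := minpoly.algebraMap_eq (A := ℚ) (B := ℝ) (B' := ℂ) (by
    intro a b h
    exact Complex.ofReal_injective h) x
  simpa using this

/-- The key lemma: an element `y` of degree `d` (prime to `p`), contained in `K(θ)` for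
`θ` of degree `p`, is in `K`. -/
theorem mem_of_degree {F E : Type*} [Field F] [Field E] [Algebra F E]
    {p d : ℕ} (hp : p.Prime) (hpd : ¬ p ∣ d)
    (K : IntermediateField F E) [FiniteDimensional F K] [IsGalois F K] {θ y : E}
    (hθ : IsAlgebraic F θ) (hθd : (minpoly F θ).natDegree = p) (hy : IsAlgebraic F y)
    (hyd : (minpoly F y).natDegree = d) (hmem : y ∈ K ⊔ F⟮θ⟯) : y ∈ K := by
  have h1 : FiniteDimensional F F⟮θ⟯ := adjoin.finiteDimensional hθ.isIntegral
  have h2 : FiniteDimensional F F⟮y⟯ := adjoin.finiteDimensional hy.isIntegral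
  have h3 : finrank F ↥(K ⊔ F⟮θ⟯) ∣ finrank F K * p := by
    have := finrank_sup_dvd K F⟮θ⟯
    rwa [adjoin.finrank hθ.isIntegral, hθd] at this
  have h4 : finrank F ↥(K ⊔ F⟮y⟯) ∣ finrank F K * d := by
    have := finrank_sup_dvd K F⟮y⟯
    rwa [adjoin.finrank hy.isIntegral, hyd] at this
  have h5 : K ⊔ F⟮y⟯ ≤ K ⊔ F⟮θ⟯ := by
    apply sup_le le_sup_left
    rw [adjoin_simple_le_iff]
    exact hmem
  have h6 : finrank F ↥(K ⊔ F⟮y⟯) ∣ finrank F ↥(K ⊔ F⟮θ⟯) :=
    finrank_dvd_of_le_right h5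
  have h7 : finrank F ↥(K ⊔ F⟮y⟯) ∣ finrank F K := by
    have h8 := Nat.dvd_gcd (h6.trans h3) h4
    rw [Nat.gcd_mul_left, (Nat.Prime.coprime_iff_not_dvd hp).2 hpd, mul_one] at h8
    exact h8
  have h9 : K = K ⊔ F⟮y⟯ := by
    apply eq_of_le_of_finrank_le le_sup_left
    exact Nat.le_of_dvd finrank_pos h7
  rw [h9]
  exact (le_sup_right : F⟮y⟯ ≤ K ⊔ F⟮y⟯) (mem_adjoin_simple_self F y)

theorem core {F E : Type*} [Field F] [Field E] [Algebra F E]
    {p d : ℕ} (hp : p.Prime) (hpd : ¬ p ∣ d)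
    (K : IntermediateField F E) [FiniteDimensional F K] [IsGalois F K]
    {a : F} (ha : ∀ b : K, b ^ p ≠ algebraMap F K a) {θ θ' : E}
    (hθ : θ ^ p = algebraMap F E a) (hθ' : θ' ^ p = algebraMap F E a) (A B : K[X]) (u : F) {y : E}
    (hy : IsAlgebraic F y) (hyd : (minpoly F y).natDegree = d)
    (hB : aeval (θ + algebraMap F E u) B ≠ 0)
    (h : aeval (θ + algebraMap F E u) A = y * aeval (θ + algebraMap F E u) B) :
    aeval (θ' + algebraMap F E u) A = y * aeval (θ' + algebraMap F E u) B := by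
  have hmin : minpoly F θ = X ^ p - C a := by
    symm
    apply minpoly.eq_of_irreducible_of_monic
    · apply X_pow_sub_C_irreducible_of_prime hp
      intro b hb
      apply ha (algebraMap F K b)
      rw [← map_pow, hb]
    · simp only [map_sub, map_pow, aeval_X, aeval_C]
      rw [hθ, sub_self]
    · exact monic_X_pow_sub_C _ hp.ne_zero
  have halg : IsAlgebraic F θ := by
    refine ⟨X ^ p - C a, (monic_X_pow_sub_C _ hp.ne_zero).ne_zero, ?_⟩
    simp only [map_sub, map_pow, aeval_X, aeval_C]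
    rw [hθ, sub_self]
  have hmem : y ∈ K ⊔ F⟮θ⟯ := by
    have h1 : y = aeval (θ + algebraMap F E u) A / aeval (θ + algebraMap F E u) B := by
      rw [h, mul_div_assoc, div_self hB, mul_one]
    have hx : θ + algebraMap F E u ∈ K ⊔ F⟮θ⟯ := by
      apply add_mem
      · exact (le_sup_right : F⟮θ⟯ ≤ K ⊔ F⟮θ⟯) (mem_adjoin_simple_self F θ)
      · exact IntermediateField.algebraMap_mem _ _
    have hev : ∀ P : K[X], aeval (θ + algebraMap F E u) P ∈ K ⊔ F⟮θ⟯ := by
      intro P
      rw [aeval_eq_sum_range]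
      apply sum_mem
      intro i _
      rw [Algebra.smul_def]
      apply mul_mem
      · exact (le_sup_left : K ≤ K ⊔ F⟮θ⟯) (P.coeff i).2
      · exact pow_mem hx _
    rw [h1]
    exact div_mem (hev A) (hev B)
  have hyK : y ∈ K := mem_of_degree hp hpd K halg
    (by rw [hmin, natDegree_X_pow_sub_C]) hy hyd hmem
  have hminK : minpoly K θ = X ^ p - C (algebraMap F K a) := by
    symm
    apply minpoly.eq_of_irreducible_of_monic
    · exact X_pow_sub_C_irreducible_of_prime hp ha
    · simp only [map_sub, map_pow, aeval_X, aeval_C]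
      rw [hθ, ← IsScalarTower.algebraMap_apply, sub_self]
    · exact monic_X_pow_sub_C _ hp.ne_zero
  let G : K[X] := (A - C (⟨y, hyK⟩ : K) * B).comp (X + C (algebraMap F K u))
  have hG : ∀ t : E, aeval t G = aeval (t + algebraMap F E u) A -
      y * aeval (t + algebraMap F E u) B := by
    intro t
    simp only [G]
    rw [aeval_comp]
    have h2 : aeval t (X + C (algebraMap F K u) : K[X]) = t + algebraMap F E u := by
      simp only [map_add, aeval_X, aeval_C]
      rw [← IsScalarTower.algebraMap_apply]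
    rw [h2, map_sub, map_mul, aeval_C]
    rfl
  have hdvd : minpoly K θ ∣ G := by
    apply minpoly.dvd
    rw [hG, h, sub_self]
  obtain ⟨H, hH⟩ := hdvd
  have h3 : aeval θ' G = 0 := by
    rw [hH, map_mul, hminK]
    simp only [map_sub, map_pow, aeval_X, aeval_C]
    rw [hθ', ← IsScalarTower.algebraMap_apply, sub_self, zero_mul]
  rw [hG] at h3
  exact sub_eq_zero.1 h3

/-- the embedding of `kk` in the complex numbers -/
noncomputable def toC : kk →+* ℂ := (algebraMap ℝ ℂ).comp kk.subtype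

theorem toC_apply (x : kk) : toC x = ((x : ℝ) : ℂ) := rfl

theorem exists_point {p d : ℕ} (hp : p.Prime) (hpd : ¬ p ∣ d) (Q : List (ℝ[X] × ℝ[X]))
    (hQB : ∀ q ∈ Q, q.2 ≠ 0) (hQ : ∀ q ∈ Q, ∀ y : ℝ, q.1 ≠ C y * q.2)
    {U : Set ℝ} (hU : IsOpen U) (hne : U.Nonempty) :
    ∃ x ∈ U, IsAlgebraic ℚ x ∧ (minpoly ℚ x).natDegree = p ∧ ∀ q ∈ Q, q.2.eval x ≠ 0 →
      IsAlgebraic ℚ (q.1.eval x / q.2.eval x) →
      (minpoly ℚ (q.1.eval x / q.2.eval x)).natDegree ≠ d := by
  classical
  -- algebraic versions of the rational functions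
  have h0 : ∀ q : ℝ[X] × ℝ[X], ∃ q' : kk[X] × kk[X], q.2 ≠ 0 → (q'.2 ≠ 0 ∧
      ∀ x y : kk, q.1.eval (x : ℝ) = y * q.2.eval (x : ℝ) → q'.1.eval x = y * q'.2.eval x) := by
    intro q
    by_cases hq : q.2 = 0
    · exact ⟨0, fun h => absurd hq h⟩
    · obtain ⟨A', B', h1, h2⟩ := exists_algebraic kk q.1 q.2 hq
      exact ⟨(A', B'), fun _ => ⟨h1, h2⟩⟩
  choose T hT using h0
  -- the number field of the coefficients
  let S : Set ℂ := ⋃ q ∈ Q, ((fun c : kk => toC c) '' ((T q).1.coeffs ∪ (T q).2.coeffs : Finset kk))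
  have hSfin : S.Finite := by
    apply Set.Finite.biUnion Q.finite_toSet
    intro q _
    exact (Finset.finite_toSet _).image _
  have hSalg : ∀ s ∈ S, IsAlgebraic ℚ s := by
    intro s hs
    simp only [S, Set.mem_iUnion] at hs
    obtain ⟨q, _, c, _, rfl⟩ := hs
    exact algebraic_complex (mem_kk.1 c.2)
  obtain ⟨K, hK1, hK2, hK3⟩ := exists_galois (F := ℚ) S hSfin hSalg
  have hcoef : ∀ q ∈ Q, (∀ i, toC ((T q).1.coeff i) ∈ K) ∧ ∀ i, toC ((T q).2.coeff i) ∈ K := by
    intro q hq
    constructor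
    · intro i
      by_cases hi : (T q).1.coeff i = 0
      · rw [hi, map_zero]; exact zero_mem _
      · apply hK3
        simp only [S, Set.mem_iUnion]
        exact ⟨q, hq, _, Finset.mem_coe.2 (Finset.mem_union_left _ (coeff_mem_coeffs hi)), rfl⟩
    · intro i
      by_cases hi : (T q).2.coeff i = 0
      · rw [hi, map_zero]; exact zero_mem _
      · apply hK3
        simp only [S, Set.mem_iUnion]
        exact ⟨q, hq, _, Finset.mem_coe.2 (Finset.mem_union_right _ (coeff_mem_coeffs hi)), rfl⟩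
  have hlift : ∀ P : kk[X], (∀ i, toC (P.coeff i) ∈ K) → ∃ P' : K[X],
      P'.map (algebraMap K ℂ) = P.map toC := by
    intro P hP
    rw [← mem_lifts, lifts_iff_coeff_lifts]
    intro i
    rw [coeff_map]
    exact ⟨⟨_, hP i⟩, rfl⟩
  -- the prime
  obtain ⟨a, ha, haK⟩ := @exists_prime_not_pow K _ _ hK1 p hp
  have hcz : CharZero K := algebraRat.charZero K
  have haK' : ∀ b : K, b ^ p ≠ algebraMap ℚ K (a : ℚ) := by
    intro b
    rw [map_natCast]
    exact haK b
  have hp0 : (p : ℝ) ≠ 0 := by exact_mod_cast hp.ne_zero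
  set θ : ℝ := (a : ℝ) ^ ((p : ℝ)⁻¹) with hθdef
  have hθ : θ ^ p = (a : ℝ) := Real.rpow_inv_natCast_pow (Nat.cast_nonneg a) hp.ne_zero
  have hθ0 : θ ≠ 0 := by
    intro h
    rw [h, zero_pow hp.ne_zero] at hθ
    have : (a : ℝ) ≠ 0 := by exact_mod_cast ha.ne_zero
    exact this hθ.symm
  obtain ⟨ζ, hζ⟩ : ∃ ζ : ℂ, IsPrimitiveRoot ζ p := ⟨_, Complex.isPrimitiveRoot_exp p hp.ne_zero⟩
  set δ : ℂ := ζ * θ - θ with hδdef
  have hδ : δ ≠ 0 := by
    have h1 : δ = (ζ - 1) * θ := by rw [hδdef]; ring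
    rw [h1]
    apply mul_ne_zero
    · rw [sub_ne_zero]
      exact hζ.ne_one hp.one_lt
    · exact_mod_cast hθ0
  have hθC : (θ : ℂ) ^ p = algebraMap ℚ ℂ (a : ℚ) := by
    rw [map_natCast, ← Complex.ofReal_pow, hθ, Complex.ofReal_natCast]
  have hθC' : (ζ * θ : ℂ) ^ p = algebraMap ℚ ℂ (a : ℚ) := by
    rw [mul_pow, hζ.pow_eq_one, one_mul, hθC]
  -- the bad polynomials
  have hbad : ∀ q : ℝ[X] × ℝ[X], ∃ R : ℂ[X], q ∈ Q → (R ≠ 0 ∧ ∀ u : ℚ,
      R.eval ((θ : ℂ) + u) ≠ 0 → q.2.eval (θ + u) ≠ 0 →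
        IsAlgebraic ℚ (q.1.eval (θ + u) / q.2.eval (θ + u)) →
        (minpoly ℚ (q.1.eval (θ + u) / q.2.eval (θ + u))).natDegree ≠ d) := by
    intro q
    by_cases hq : q ∈ Q
    swap
    · exact ⟨0, fun h => absurd h hq⟩
    obtain ⟨hB', hT'⟩ := hT q (hQB q hq)
    obtain ⟨A1, hA1⟩ := hlift (T q).1 (hcoef q hq).1
    obtain ⟨B1, hB1⟩ := hlift (T q).2 (hcoef q hq).2
    have hθalg : IsAlgebraic ℚ θ := by
      refine ⟨X ^ p - C (a : ℚ), (monic_X_pow_sub_C _ hp.ne_zero).ne_zero, ?_⟩
      simp only [map_sub, map_pow, aeval_X, aeval_C]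
      rw [hθ, map_natCast, sub_self]
    have hxalg : ∀ u : ℚ, IsAlgebraic ℚ (θ + u : ℝ) := fun u => hθalg.add (isAlgebraic_algebraMap u)
    have hev : ∀ (P : kk[X]) (x : kk), (P.map toC).eval ((x : ℝ) : ℂ) = ((P.eval x : kk) : ℝ) := by
      intro P x
      rw [← toC_apply, eval_map_apply, toC_apply]
    -- the relation between the values
    have hrel : ∀ u : ℚ, q.2.eval (θ + u : ℝ) ≠ 0 →
        IsAlgebraic ℚ (q.1.eval (θ + u : ℝ) / q.2.eval (θ + u)) →
        ((T q).1.map toC).eval ((θ : ℂ) + u) =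
          ((q.1.eval (θ + u : ℝ) / q.2.eval (θ + u) : ℝ) : ℂ) *
            ((T q).2.map toC).eval ((θ : ℂ) + u) := by
      intro u hne halg
      have h1 := hT' ⟨(θ + u : ℝ), mem_kk.2 (hxalg u)⟩ ⟨_, mem_kk.2 halg⟩ (by
        show _ = q.1.eval (θ + u : ℝ) / q.2.eval (θ + u) * _
        rw [div_mul_cancel₀ _ hne])
      have h2 : ((θ : ℂ) + u) = (((⟨(θ + u : ℝ), mem_kk.2 (hxalg u)⟩ : kk) : ℝ) : ℂ) := by
        push_cast
        rfl
      rw [h2, hev, hev, h1]
      push_cast
      rfl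
    by_cases hc : ∃ y : ℂ, (T q).1.map toC = C y * (T q).2.map toC
    · -- the algebraic version is constant
      obtain ⟨y0, hy0⟩ := hc
      refine ⟨(T q).2.map toC * (q.1.map (algebraMap ℝ ℂ) - C y0 * q.2.map (algebraMap ℝ ℂ)),
        fun _ => ⟨?_, ?_⟩⟩
      · apply mul_ne_zero
        · rwa [Ne, Polynomial.map_eq_zero]
        · intro h
          obtain ⟨i, hi⟩ : ∃ i, q.2.coeff i ≠ 0 := by
            by_contra hcon
            push Not at hcon
            exact hQB q hq (Polynomial.ext (by simpa using hcon))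
          have hco : ∀ j, (q.1.coeff j : ℂ) = y0 * q.2.coeff j := by
            intro j
            have := congrArg (fun P => Polynomial.coeff P j) h
            simp only [coeff_sub, coeff_map, coeff_C_mul, coeff_zero] at this
            exact sub_eq_zero.1 this
          have hy0 : y0 = ((q.1.coeff i / q.2.coeff i : ℝ) : ℂ) := by
            have h1 := hco i
            have h2 : (q.2.coeff i : ℂ) ≠ 0 := by exact_mod_cast hi
            push_cast
            rw [h1]
            field_simp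
          apply hQ q hq (q.1.coeff i / q.2.coeff i)
          ext j
          rw [coeff_C_mul]
          have h1 := hco j
          rw [hy0] at h1
          exact_mod_cast h1
      · intro u hR hne halg _
        apply hR
        rw [eval_mul]
        have h1 := hrel u hne halg
        rw [hy0, eval_mul, eval_C] at h1
        by_cases h2 : ((T q).2.map toC).eval ((θ : ℂ) + u) = 0
        · rw [h2, zero_mul]
        · have h3 := mul_right_cancel₀ h2 h1
          rw [h3, eval_sub, eval_mul, eval_C]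
          have h4 : ((θ : ℂ) + u) = algebraMap ℝ ℂ (θ + u : ℝ) := by
            simp
          rw [h4, eval_map_apply, eval_map_apply]
          have h5 : algebraMap ℝ ℂ (eval (θ + u : ℝ) q.1) -
              ((q.1.eval (θ + u : ℝ) / q.2.eval (θ + u) : ℝ) : ℂ) *
                algebraMap ℝ ℂ (eval (θ + u : ℝ) q.2) = 0 := by
            have h6 : ((q.1.eval (θ + u : ℝ) / q.2.eval (θ + u) : ℝ) : ℂ) *
                algebraMap ℝ ℂ (eval (θ + u : ℝ) q.2) =
                algebraMap ℝ ℂ (q.1.eval (θ + u : ℝ) / q.2.eval (θ + u) *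
                  eval (θ + u : ℝ) q.2) := by
              rw [map_mul]; rfl
            rw [h6, div_mul_cancel₀ _ hne, sub_self]
          rw [h5, mul_zero]
    · push Not at hc
      have hBne : (T q).2.map toC ≠ 0 := by rwa [Ne, Polynomial.map_eq_zero]
      refine ⟨_, fun _ => ⟨not_periodic hδ hBne hc, ?_⟩⟩
      intro u hR hne halg hdeg
      apply hR
      have h1 := hrel u hne halg
      set y : ℂ := ((q.1.eval (θ + u : ℝ) / q.2.eval (θ + u) : ℝ) : ℂ) with hydef
      have h2 : ((T q).2.map toC).eval ((θ : ℂ) + u) ≠ 0 := by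
        intro h2
        rw [h2, mul_zero] at h1
        apply hR
        rw [eval_sub, eval_mul, eval_mul, h1, h2]
        ring
      have h3 := core (F := ℚ) (E := ℂ) (d := d) hp hpd K haK' hθC hθC' A1 B1 u (y := y)
        (algebraic_complex halg) (by rw [minpoly_complex]; exact hdeg)
      have h4 : ∀ (P' : K[X]) (P : kk[X]) (t : ℂ), P'.map (algebraMap K ℂ) = P.map toC →
          aeval t P' = (P.map toC).eval t := by
        intro P' P t h
        rw [← h, eval_map_algebraMap]
      have h5 : algebraMap ℚ ℂ u = (u : ℂ) := rfl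
      rw [h4 _ _ _ hA1, h4 _ _ _ hB1, h4 _ _ _ hA1, h4 _ _ _ hB1, h5] at h3
      have h6 := h3 h2 h1
      rw [eval_sub, eval_mul, eval_mul, eval_comp, eval_comp]
      have h7 : eval ((θ : ℂ) + u) (X + C δ) = ζ * θ + u := by
        rw [eval_add, eval_X, eval_C, hδdef]; ring
      rw [h7, h1, h6]
      ring
  choose R hR using hbad
  -- choose the rational number
  let Rt : ℂ[X] := (Q.map R).prod
  have hRt : Rt ≠ 0 := by
    apply List.prod_ne_zero
    intro h
    rw [List.mem_map] at h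
    obtain ⟨q, hq, h1⟩ := h
    exact (hR q hq).1 h1
  have hfin : {x : ℝ | Rt.eval (x : ℂ) = 0}.Finite := by
    have h1 : {x : ℝ | Rt.eval (x : ℂ) = 0} = (fun x : ℝ => (x : ℂ)) ⁻¹' {z | Rt.IsRoot z} := rfl
    rw [h1]
    apply Set.Finite.preimage
    · intro x _ y _ h
      exact Complex.ofReal_injective h
    · exact finite_setOfPred_isRoot hRt
  obtain ⟨x0, hx0⟩ : (U \ {x : ℝ | Rt.eval (x : ℂ) = 0}).Nonempty := by
    obtain ⟨z, hz⟩ := hne
    have h1 : U.Infinite := infinite_of_mem_nhds z (hU.mem_nhds hz)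
    exact (h1.sdiff hfin).nonempty
  have hV : IsOpen ((fun t : ℝ => θ + t) ⁻¹' (U \ {x : ℝ | Rt.eval (x : ℂ) = 0})) := by
    apply IsOpen.preimage (by fun_prop)
    exact hU.sdiff hfin.isClosed
  obtain ⟨u, hu⟩ := Rat.denseRange_cast.exists_mem_open hV ⟨x0 - θ, by
    show θ + (x0 - θ) ∈ U \ {x : ℝ | Rt.eval (x : ℂ) = 0}
    rw [add_sub_cancel]
    exact hx0⟩
  have hu2 : Rt.eval ((θ : ℂ) + u) ≠ 0 := by
    have := hu.2
    intro h
    apply this
    show Rt.eval ((θ + u : ℝ) : ℂ) = 0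
    push_cast
    exact h
  have hminθ : minpoly ℚ θ = X ^ p - C (a : ℚ) := by
    symm
    apply minpoly.eq_of_irreducible_of_monic
    · apply X_pow_sub_C_irreducible_of_prime hp
      intro b hb
      apply haK' (algebraMap ℚ K b)
      rw [← map_pow, hb]
    · simp only [map_sub, map_pow, aeval_X, aeval_C]
      rw [hθ, map_natCast, sub_self]
    · exact monic_X_pow_sub_C _ hp.ne_zero
  have hθalg : IsAlgebraic ℚ θ := by
    refine ⟨X ^ p - C (a : ℚ), (monic_X_pow_sub_C _ hp.ne_zero).ne_zero, ?_⟩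
    simp only [map_sub, map_pow, aeval_X, aeval_C]
    rw [hθ, map_natCast, sub_self]
  refine ⟨θ + u, hu.1, hθalg.add (isAlgebraic_algebraMap u), ?_, ?_⟩
  · have h1 := minpoly.add_algebraMap (A := ℚ) θ u
    have h2 : algebraMap ℚ ℝ u = (u : ℝ) := rfl
    rw [h2] at h1
    rw [h1, hminθ, natDegree_comp, natDegree_X_pow_sub_C, natDegree_X_sub_C, mul_one]
  · intro q hq
    apply (hR q hq).2 u
    intro h
    apply hu2
    show ((Q.map R).prod).eval _ = 0
    rw [eval_list_prod]
    apply List.prod_eq_zero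
    rw [List.map_map, List.mem_map]
    exact ⟨q, hq, h⟩

end Pool.Agent.V8H39.BSS
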